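import Mathlib
import Pool.Agent.Q171.SD.Final

/-!
# Longer lists can hurt under serial dictatorship with multi-seat schools

There are `n` schools with `q` seats each; the students have independent uniformly random
preference lists of `d` distinct schools and choose one after the other
(`Q171SD.choice`, `Q171SD.step`, `Q171SD.occAfter`).  `Q171SD.matchProb n d q i` is the
probability that student number `i` is matched.

The question asks whether for all `q` and all `d ≤ ℓ` there is `N` such that for all `n ≥ N` every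
student `i ≤ n q` is matched with lists of length `ℓ` at least as likely as with lists of
length `d`.  The answer is negative, and it is negative for every `q ≥ 2`: for every `d` that is
large enough (in terms of `q`) and every `ℓ` that is large enough (in terms of `q` and `d`) the last
student `i = n q` is strictly less likely to be matched with lists of length `ℓ` than with lists
of length `d`, by a positive constant, for all large `n`.

The proof: by a law of large numbers the probability that student `n q` is matched with lists of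
length `d` converges to `1 - Y(Λ) ^ d`, where `Y(Λ) = P(Poi(Λ) ≥ q)` and `Λ` is the solution at time
`q` of `Λ' = 1 + Y(Λ) + ⋯ + Y(Λ) ^ (d - 1)`.  As `d` tends to infinity this limit tends to `1 / 2`,
and for `q ≥ 2` from above, because of the strict log-concavity of the iterated Poisson tails.
-/

set_option autoImplicit false

namespace Pool.Agent.Results.MP_28dd6c_pr.LongerListsHurt

open Q171SD

/-- The answer to the question is negative, for every number `q ≥ 2` of seats per school. -/
theorem result :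
    (¬ ∀ q d ℓ : ℕ, 1 ≤ q → 1 ≤ d → d ≤ ℓ → ∃ N : ℕ, ∀ n ≥ N, ∀ i : ℕ, 1 ≤ i → i ≤ n * q →
      matchProb n ℓ q i ≥ matchProb n d q i) ∧
    (∀ q ≥ 2, ∃ d₀ : ℕ, ∀ d ≥ d₀, ∃ δ : ℝ, 0 < δ ∧ ∃ ℓ₀ : ℕ, ∀ ℓ ≥ ℓ₀, ∃ N : ℕ, ∀ n ≥ N,
      matchProb n ℓ q (n * q) + δ ≤ matchProb n d q (n * q)) := by
  have hmain : ∀ q ≥ 2, ∃ d₀ : ℕ, ∀ d ≥ d₀, ∃ δ : ℝ, 0 < δ ∧ ∃ ℓ₀ : ℕ, ∀ ℓ ≥ ℓ₀, ∃ N : ℕ,
      ∀ n ≥ N, matchProb n ℓ q (n * q) + δ ≤ matchProb n d q (n * q) := by
    intro q hq
    obtain ⟨d₀, hd₀⟩ := last_student q hq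
    refine ⟨d₀, fun d hd => ?_⟩
    obtain ⟨δ, hδ, h⟩ := hd₀ d hd
    exact ⟨δ, hδ, h⟩
  refine ⟨?_, hmain⟩
  intro hconj
  obtain ⟨d₀, hd₀⟩ := hmain 2 le_rfl
  obtain ⟨δ, hδ, ℓ₀, hℓ₀⟩ := hd₀ (d₀ + 1) (by omega)
  obtain ⟨N, hN⟩ := hℓ₀ (ℓ₀ + d₀ + 1) (by omega)
  obtain ⟨N', hN'⟩ := hconj 2 (d₀ + 1) (ℓ₀ + d₀ + 1) (by omega) (by omega) (by omega)
  have h1 := hN (N + N' + 1) (by omega)
  have h2 := hN' (N + N' + 1) (by omega) ((N + N' + 1) * 2) (by omega) le_rfl
  linarith

end Pool.Agent.Results.MP_28dd6c_pr.LongerListsHurt
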